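import Pool.Agent.SecFill.Closure

/-!
# Multisecant lines of complete intersections
-/

set_option autoImplicit false

open MvPolynomial

namespace Pool.Agent.Results.MP_b7a448_ag.CompleteIntersections

open Pool.Agent.SecFill

/-- Let `f₁, …, f_m` be forms of degrees at least `k` on `ℙ^N`, `N ≥ 1`, with `k (m - 1) ≤ N - 1`,
and let `X` be the scheme they define. Through every point `p` of `ℙ^N` passes a line `L` which
lies in `X` or meets `X` in a scheme of length at least `k`: a nonzero binary form `h` of degree `k`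
divides the restriction to `L` of every element of the ideal of `X`. -/
theorem result (N k m : ℕ) (hN : 1 ≤ N) (f : Fin m → MvPolynomial (Fin (N + 1)) ℂ)
    (d : Fin m → ℕ) (hf : ∀ i, (f i).IsHomogeneous (d i)) (hd : ∀ i, k ≤ d i)
    (hk : k * m < N + k) (p : Fin (N + 1) → ℂ) (hp : p ≠ 0) :
    ∃ v : Fin (N + 1) → ℂ, LinearIndependent ℂ ![p, v] ∧
      ∃ h : MvPolynomial (Fin 2) ℂ, h.IsHomogeneous k ∧ h ≠ 0 ∧
        ∀ F ∈ Ideal.span (Set.range f), h ∣ onLine p v F := by
  obtain ⟨j0, hj0⟩ : ∃ j0, p j0 ≠ 0 := by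
    by_contra hcon
    push Not at hcon
    exact hp (funext hcon)
  have hlin : ∀ v : Fin (N + 1) → ℂ, v j0 = 0 → v ≠ 0 → LinearIndependent ℂ ![p, v] := by
    intro v hv0 hv
    rw [LinearIndependent.pair_iff]
    intro s t hst
    have h1 := congrFun hst j0
    simp only [Pi.add_apply, Pi.smul_apply, smul_eq_mul, hv0, mul_zero, add_zero,
      Pi.zero_apply] at h1
    have hs : s = 0 := (mul_eq_zero.1 h1).resolve_right hj0
    rw [hs, zero_smul, zero_add] at hst
    exact ⟨hs, (smul_eq_zero.1 hst).resolve_right hv⟩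
  by_cases hne : ∃ i, f i ≠ 0
  · obtain ⟨v, hv0, hv1, a, b, ha, hg⟩ := good_all f d hf hd hk hne p j0
    have hv : v ≠ 0 := by
      intro h; rw [h, norm_zero] at hv1; exact zero_ne_one hv1
    have ha0 : a ≠ 0 := by
      intro h; rw [h, norm_zero] at ha; exact zero_ne_one ha
    refine ⟨v, hlin v hv0 hv, formP k a, formP_hom k a, formP_ne_zero ha0, fun F hF => ?_⟩
    have hfi : ∀ i, formP k a ∣ onLine p v (f i) := by
      intro i
      refine ⟨formP (d i - k) (b i), ?_⟩
      apply MvPolynomial.funext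
      intro x
      rw [onLine_eval, map_mul, formP_eval, formP_eval]
      exact (hg i (x 0) (x 1)).symm
    have hle : Ideal.span (Set.range f) ≤
        (Ideal.span {formP k a}).comap (onLine p v : MvPolynomial (Fin (N + 1)) ℂ →+*
          MvPolynomial (Fin 2) ℂ) := by
      rw [Ideal.span_le]
      rintro _ ⟨i, rfl⟩
      exact Ideal.mem_span_singleton.2 (hfi i)
    exact Ideal.mem_span_singleton.1 (hle hF)
  · push Not at hne
    obtain ⟨j1, hj1⟩ : ∃ j1 : Fin (N + 1), j1 ≠ j0 := by
      have : Nontrivial (Fin (N + 1)) := Fin.nontrivial_iff_two_le.2 (by omega)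
      exact exists_ne j0
    refine ⟨Pi.single j1 1, hlin _ (Pi.single_eq_of_ne hj1.symm 1) ?_, X 0 ^ k,
      isHomogeneous_X_pow _ _, pow_ne_zero _ (X_ne_zero _), fun F hF => ?_⟩
    · intro h
      have := congrFun h j1
      simp at this
    · have h0 : Set.range f ⊆ {0} := by
        rintro _ ⟨i, rfl⟩
        exact hne i
      have h1 : F ∈ Ideal.span ({0} : Set (MvPolynomial (Fin (N + 1)) ℂ)) :=
        Ideal.span_mono h0 hF
      rw [Ideal.mem_span_singleton] at h1
      rw [zero_dvd_iff.1 h1, map_zero]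
      exact dvd_zero _

end Pool.Agent.Results.MP_b7a448_ag.CompleteIntersections
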